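import Pool.Agent.H.MP_7a24ab_lc.A

set_option autoImplicit false
open Set Filter Topology Pool.Agent.H.MP_7a24ab_lc Classical

namespace Pool.Agent.Results.MP_570618_gt.Counter

def V : Type := W
noncomputable instance : LinearOrder V := inferInstanceAs (LinearOrder W)
instance : WellFoundedLT V := inferInstanceAs (WellFoundedLT W)
instance : TopologicalSpace V := ⊥
instance : DiscreteTopology V := ⟨rfl⟩
instance : Nonempty V := (bdd countable_empty).elim fun a _ => ⟨a⟩

lemma image (b : V → V → ℝ) (hb : ∀ β l, b β l = 0 ∨ b β l = 1) : ∃ S : Set (OnePoint V → ℝ),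
    (∀ f ∈ S, Continuous f) ∧ (∀ f, Continuous f → f ∈ closure S) ∧
    ∃ F : S → V → ℝ, Continuous F ∧ range b ⊆ range F := by
  choose e he using fun β : V => countable_iff_exists_injOn.1 (show (Iio β).Countable from cIio β)
  choose f hf using fun β : V => countable_iff_exists_subset_range.1 (show (Iio β).Countable from cIio β)
  let y : V → V → ℝ := fun β ξ => if ξ = β then 1 else if ξ < β then 1 / ((e β ξ : ℝ) + 2) else 0
  have y0 : ∀ β ξ, 0 ≤ y β ξ := fun β ξ => by simp only [y]; split_ifs <;> positivity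
  have y1 : ∀ β ξ, ξ ≤ β → 0 < y β ξ := fun β ξ h => by
    simp only [y]; split_ifs with h1 h2
    exacts [one_pos, by positivity, absurd (h.lt_of_ne h1) h2]
  have y2 : ∀ β ξ, ξ ≠ β → y β ξ ≤ 1 / 2 := fun β ξ h => by
    simp only [y, if_neg h]; split_ifs
    exacts [one_div_le_one_div_of_le two_pos (by linarith [(e β ξ).cast_nonneg (α := ℝ)]), by norm_num]
  let x : V → OnePoint V → ℝ := fun β p => Option.elim p 0 fun ξ => (2 * b β ξ - 1) * y β ξ
  have xa : ∀ β (ξ : V), |x β ξ| = y β ξ := fun β ξ => by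
    change |(2 * b β ξ - 1) * y β ξ| = _
    rcases hb β ξ with h | h <;> norm_num [h, abs_of_nonneg (y0 β ξ)]
  have xc : ∀ β, Continuous (x β) := fun β => by
    refine (OnePoint.continuous_iff_from_discrete _).2 (Metric.tendsto_nhds.2 fun ε hε => ?_)
    obtain ⟨N, hN⟩ := exists_nat_one_div_lt hε
    refine ((Set.Finite.of_finite_image (s := {ξ | ξ < β ∧ e β ξ < N}) (f := e β) ((finite_Iio N).subset
      (by rintro _ ⟨ξ, h, rfl⟩; exact h.2)) ((he β).mono fun _ h => h.1)).insert β).subset fun ξ h => ?_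
    by_contra! k
    simp only [mem_insert_iff, mem_setOf_eq, not_or, not_and, not_lt] at k
    refine h (show dist (x β ξ) 0 < ε from ?_)
    rw [Real.dist_eq, sub_zero, xa]
    simp only [y, if_neg k.1]
    split_ifs with q
    · have : (N : ℝ) ≤ e β ξ := by exact_mod_cast k.2 q
      exact (one_div_le_one_div_of_le (by positivity) (by linarith)).trans_lt hN
    · exact hε
  let t : ℝ → V → ℕ → (OnePoint V → ℝ) → ℝ := fun c l n z =>
    if f l n < l ∧ b (f l n) l = c then (1 / 2) ^ n * min 1 (max (|z (f l n)| - 1 / 2) 0) else 0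
  have t0 : ∀ c l n z, 0 ≤ t c l n z := fun c l n z => by simp only [t]; split_ifs <;> positivity
  have t1 : ∀ c l n z, ‖t c l n z‖ ≤ (1 / 2) ^ n := fun c l n z => by
    rw [Real.norm_of_nonneg (t0 _ _ _ _)]
    simp only [t]; split_ifs
    exacts [mul_le_of_le_one_right (by positivity) (min_le_left _ _), by positivity]
  let P : ℝ → V → (OnePoint V → ℝ) → ℝ := fun c l z => max ((2 * c - 1) * z l) 0 + ∑' n, t c l n z
  have Pc : ∀ c l, Continuous (P c l) := fun c l => Continuous.add (by fun_prop)
    (continuous_tsum (fun n => by simp only [t]; split_ifs <;> fun_prop) summable_geometric_two (t1 c l))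
  have P0 : ∀ c l z, 0 ≤ P c l z := fun c l z => add_nonneg (le_max_right _ _) (tsum_nonneg fun n => t0 _ _ _ _)
  have P1 : ∀ β l, P (1 - b β l) l (x β) = 0 := fun β l => by
    have h1 : max ((2 * (1 - b β l) - 1) * x β l) 0 = 0 := max_eq_right (by
      change _ * ((2 * b β l - 1) * y β l) ≤ _
      rcases hb β l with h | h <;> rw [h] <;> linarith [y0 β l])
    have h2 : ∀ n, t (1 - b β l) l n (x β) = 0 := fun n => by
      simp only [t]
      split_ifs with h
      · have : f l n ≠ β := fun k => by
          rw [k] at h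
          rcases hb β l with q | q <;> rw [q] at h <;> norm_num at h
        rw [xa, max_eq_right (sub_nonpos.2 (y2 _ _ this))]
        simp
      · rfl
    simp only [P, h1, h2, tsum_zero, add_zero]
  have P2 : ∀ β l, 0 < P (b β l) l (x β) := fun β l => by
    rcases le_or_gt l β with h | h
    · refine add_pos_of_pos_of_nonneg (lt_max_of_lt_left ?_) (tsum_nonneg fun n => t0 _ _ _ _)
      change 0 < _ * ((2 * b β l - 1) * y β l)
      rcases hb β l with q | q <;> rw [q] <;> linarith [y1 β l h]
    · obtain ⟨n, rfl⟩ := hf l h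
      refine add_pos_of_nonneg_of_pos (le_max_right _ _) (Summable.tsum_pos (Summable.of_norm_bounded
        summable_geometric_two fun n => t1 _ _ n _) (fun n => t0 _ _ _ _) n ?_)
      simp only [t, xa, y, if_pos (And.intro h rfl), if_true]
      norm_num
  refine ⟨range x ∪ {g | Continuous g ∧ g OnePoint.infty ≠ 0}, ?_, fun g hg => ?_,
    fun z l => P 1 l z / (P 1 l z + P 0 l z + |z.1 OnePoint.infty|), continuous_pi fun l => ?_, ?_⟩
  · rintro _ (⟨β, rfl⟩ | h)
    exacts [xc β, h.1]
  · by_cases h : g OnePoint.infty = 0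
    · refine mem_closure_of_tendsto (f := fun (n : ℕ) p => g p + 1 / ((n : ℝ) + 1)) (b := atTop)
        (tendsto_pi_nhds.2 fun p => by simpa using tendsto_one_div_add_atTop_nhds_zero_nat.const_add (g p))
        (Eventually.of_forall fun n => Or.inr ⟨hg.add continuous_const, ?_⟩)
      simp only [h, zero_add]
      positivity
    · exact subset_closure (Or.inr ⟨hg, h⟩)
  · refine Continuous.div ((Pc _ _).comp continuous_subtype_val) ((((Pc _ _).add (Pc _ _)).comp
      continuous_subtype_val).add ((continuous_apply _).comp continuous_subtype_val).abs) ?_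
    rintro ⟨_, ⟨β, rfl⟩ | h⟩
    · have h1 := P2 β l
      have := abs_nonneg (x β OnePoint.infty)
      refine ne_of_gt ?_
      rcases hb β l with q | q <;> rw [q] at h1 <;> linarith [P0 1 l (x β), P0 0 l (x β)]
    · exact (add_pos_of_nonneg_of_pos (add_nonneg (P0 _ _ _) (P0 _ _ _)) (abs_pos.2 h.2)).ne'
  · rintro _ ⟨β, rfl⟩
    refine ⟨⟨x β, Or.inl ⟨β, rfl⟩⟩, funext fun l => ?_⟩
    have h1 := P1 β l
    have h2 := P2 β l
    change P 1 l (x β) / (P 1 l (x β) + P 0 l (x β) + |0|) = _
    rcases hb β l with q | q <;> rw [q] at h1 h2 ⊢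
    · simp [show P 1 l (x β) = 0 by simpa using h1]
    · simp [show P 0 l (x β) = 0 by simpa using h1, h2.ne']

noncomputable def ind (A : Set V) : V → ℝ := fun l => if l ∈ A then 1 else 0
abbrev J : Type := Σ n : ℕ, (Fin n → Bool)

theorem result : ∃ (X K : Type) (_ : TopologicalSpace X) (_ : TopologicalSpace K),
    CompactSpace X ∧ T2Space X ∧ CompactSpace K ∧ T2Space K ∧
    (∃ e : X → K → ℝ, IsEmbedding e ∧ ∀ x, Continuous (e x)) ∧
    ∃ S : Set (X → ℝ), (∀ f ∈ S, Continuous f) ∧ (∀ f, Continuous f → f ∈ closure S) ∧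
    ∃ (Z : Type) (_ : TopologicalSpace Z) (F : S → Z) (B : Set Z), T35Space Z ∧ Continuous F ∧
      B ⊆ range F ∧ IsCompact B ∧
      (∃ A ⊆ B, ∃ z ∈ closure A, ∀ A' ⊆ A, A'.Countable → z ∉ closure A') ∧
      (∃ A ⊆ B, IsSeqClosed A ∧ ¬ IsClosed A) ∧
      ∃ A ⊆ B, A.Infinite ∧ A.Countable ∧ ∀ N : Set (Set Z),
        (∀ U, IsOpen U → ∀ z ∈ U ∩ closure A, ∃ M ∈ N, z ∈ M ∧ M ⊆ U) → ¬ N.Countable := by
  obtain ⟨c⟩ : Nonempty (V ↪ (ℕ → Bool)) := (Cardinal.le_def _ _).1 (cW.le.trans (by
    simpa using Cardinal.aleph_one_le_continuum))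
  let d : J → V → ℝ := fun j => ind {l | ∀ i : Fin j.1, c l i = j.2 i}
  let G : J ⊕ Option V ⊕ Option V → V → ℝ :=
    Sum.elim d (Sum.elim (fun o => ind (o.elim ∅ singleton)) fun o => ind (o.elim univ Iio))
  obtain ⟨s, hs⟩ : ∃ s : V → J ⊕ Option V ⊕ Option V, Function.Surjective s := by
    have h1 : Cardinal.mk (Option V) = Cardinal.aleph 1 := by
      rw [Cardinal.mk_option, show Cardinal.mk V = _ from cW, Cardinal.add_one_eq (Cardinal.aleph0_le_aleph 1)]
    obtain ⟨g⟩ : Nonempty (J ⊕ Option V ⊕ Option V ↪ V) := (Cardinal.le_def _ _).1 (by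
      rw [Cardinal.mk_sum, Cardinal.mk_sum, h1, show Cardinal.mk V = _ from cW]
      simp only [Cardinal.lift_id]
      exact Cardinal.add_le_of_le (Cardinal.aleph0_le_aleph 1)
        (Cardinal.mk_le_aleph0.trans (Cardinal.aleph0_le_aleph 1)) (by simp))
    exact ⟨_, Function.invFun_surjective g.injective⟩
  have i01 : ∀ A l, ind A l = 0 ∨ ind A l = 1 := fun A l => by unfold ind; split_ifs <;> simp
  obtain ⟨S, S1, S2, F, F1, F2⟩ := image (G ∘ s) fun β l => by
    rcases e : s β with _ | _ | _ <;> simp only [Function.comp, e] <;> exact i01 _ _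
  let T : Set (V → ℝ) := Set.pi univ fun _ => {0, 1}
  have Tc : IsCompact T := isCompact_univ_pi fun _ => (toFinite _).isCompact
  have Ti : ∀ z ∈ T, z = ind {l | z l = 1} := fun z hz => funext fun l => by
    rcases hz l trivial with h | h <;> simp [ind, show z l = _ from h]
  let A : Set (V → ℝ) := range fun a => ind (Iio a)
  have cA : ∀ z ∈ closure A, z ∈ A ∨ z = ind univ := fun z hz => by
    have h1 : z ∈ T := closure_minimal (by rintro _ ⟨a, rfl⟩ l _; exact i01 _ _) Tc.isClosed hz
    have h2 : IsLowerSet {l | z l = 1} := fun p q h k => by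
      have : z p ≤ z q := closure_minimal (s := A) (t := {z : V → ℝ | z p ≤ z q}) (by
        rintro _ ⟨a, rfl⟩
        simp only [ind, mem_setOf_eq, mem_Iio]
        split_ifs with h1 h2 <;> first | exact absurd (h.trans_lt h1) h2 | norm_num)
        (isClosed_le (continuous_apply p) (continuous_apply q)) hz
      rcases h1 q trivial with e | e
      · rw [show z q = 0 from e, show z p = 1 from k] at this; norm_num at this
      · exact e
    rw [Ti z h1]
    exact h2.eq_univ_or_Iio.symm.imp (fun ⟨a, h⟩ => ⟨a, by rw [h]⟩) fun h => by rw [h]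
  have nA : ∀ A' ⊆ A, A'.Countable → ind univ ∉ closure A' := fun A' h1 h2 k => by
    choose a ha using fun z : A' => h1 z.2
    haveI := h2.to_subtype
    obtain ⟨β, hβ⟩ : ∃ β : V, ∀ z ∈ range a, z < β := bdd (countable_range a)
    have : ind univ β = 0 := closure_minimal (t := {z : V → ℝ | z β = 0}) (fun z hz => by
      have := congrFun (ha ⟨z, hz⟩) β
      exact this.symm.trans (if_neg (hβ _ (mem_range_self _)).not_gt)) (isClosed_eq (continuous_apply β) continuous_const) k
    simp [ind] at this
  have uA : ind univ ∈ closure A := by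
    refine mem_closure_of_tendsto (f := fun a => ind (Iio a)) (b := atTop) (tendsto_pi_nhds.2 fun l =>
      tendsto_const_nhds.congr' ?_) (Eventually.of_forall mem_range_self)
    obtain ⟨β, hβ⟩ : ∃ β : V, ∀ z ∈ ({l} : Set V), z < β := bdd (countable_singleton _)
    exact (eventually_ge_atTop β).mono fun a ha => by simp [ind, (hβ l rfl).trans_le ha]
  have dT : closure (range d) ⊆ T := closure_minimal (by rintro _ ⟨a, rfl⟩ l _; exact i01 _ _) Tc.isClosed
  have cD : closure (range d) ⊆ range G := fun z hz => by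
    by_cases h : {l | z l = 1}.Subsingleton
    · rw [Ti z (dT hz)]
      rcases h.eq_empty_or_singleton with e | ⟨l, e⟩ <;> rw [e]
      exacts [⟨.inr (.inl none), rfl⟩, ⟨.inr (.inl (some l)), rfl⟩]
    obtain ⟨p, hp, q, hq, hne⟩ := not_subsingleton_iff.1 h
    obtain ⟨m, hm⟩ := Function.ne_iff.1 (c.injective.ne hne)
    have fin : {j : J | j.1 < m + 1}.Finite := ((finite_Iio (m + 1)).biUnion fun n _ =>
      finite_range (Sigma.mk (β := fun n => Fin n → Bool) n)).subset fun j hj => mem_biUnion hj ⟨j.2, rfl⟩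
    suffices k : z ∈ d '' {j : J | j.1 < m + 1} from k.elim fun j h => ⟨.inl j, h.2⟩
    refine closure_minimal (t := d '' {j : J | j.1 < m + 1}) ?_ (fin.image d).isClosed
      (IsOpen.inter_closure (s := {z : V → ℝ | z p ≠ 0} ∩ {z | z q ≠ 0})
        ((isOpen_ne_fun (continuous_apply p) continuous_const).inter
        (isOpen_ne_fun (continuous_apply q) continuous_const))
        ⟨⟨by simp [show z p = 1 from hp], by simp [show z q = 1 from hq]⟩, hz⟩)
    rintro _ ⟨⟨h1, h2⟩, j, rfl⟩
    refine ⟨j, Nat.lt_succ_of_le (not_lt.1 fun k => hm ?_), rfl⟩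
    simp only [d, ind, mem_setOf_eq, ne_eq, ite_eq_right_iff, one_ne_zero, imp_false, not_not] at h1 h2
    exact (h1 ⟨m, k⟩).trans (h2 ⟨m, k⟩).symm
  have sD : ∀ l, ind {l} ∈ closure (range d) := fun l => by
    refine mem_closure_of_tendsto (f := fun n => d ⟨n, fun i => c l i⟩) (b := atTop) (tendsto_pi_nhds.2 fun p =>
      tendsto_const_nhds.congr' ?_) (Eventually.of_forall fun _ => mem_range_self _)
    by_cases h : p = l
    · exact Eventually.of_forall fun n => by simp [d, ind, h]
    · obtain ⟨m, hm⟩ := Function.ne_iff.1 (c.injective.ne h)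
      refine (eventually_gt_atTop m).mono fun n hn => ?_
      simp only [d, ind, mem_singleton_iff, if_neg h, mem_setOf_eq]
      exact (if_neg fun k => hm (k ⟨m, hn⟩)).symm
  have net : ∀ N : Set (Set (V → ℝ)), (∀ U, IsOpen U → ∀ z ∈ U ∩ closure (range d), ∃ M ∈ N, z ∈ M ∧ M ⊆ U) →
      ¬ N.Countable := fun N h hc => by
    choose M M1 M2 M3 using fun l => h {z | z l ≠ 0} (isOpen_ne_fun (continuous_apply l) continuous_const)
      (ind {l}) ⟨by simp [ind], sD l⟩
    obtain ⟨a, ha⟩ : ∃ a : V, ∀ z ∈ M ⁻¹' N, z < a := bdd (hc.preimage_of_injOn fun p _ q _ e => by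
      have : ind {q} p ≠ 0 := M3 p (e ▸ M2 q)
      exact by_contra fun k => this (if_neg k))
    exact (ha a (M1 a)).false
  refine ⟨OnePoint V, OnePoint V, inferInstance, inferInstance, inferInstance, inferInstance, inferInstance,
    inferInstance, ?_, S, S1, S2, V → ℝ, inferInstance, F, closure (range d) ∪ closure A, inferInstance, F1,
    Subset.trans ?_ F2, (Tc.of_isClosed_subset isClosed_closure dT).union (Tc.of_isClosed_subset isClosed_closure
      (closure_minimal (by rintro _ ⟨a, rfl⟩ l _; exact i01 _ _) Tc.isClosed)),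
    ⟨A, subset_closure.trans subset_union_right, _, uA, nA⟩,
    ⟨A, subset_closure.trans subset_union_right, fun x z h1 h2 => ?_, fun h => ?_⟩,
    range d, subset_closure.trans subset_union_left, fun h => ?_, countable_range d, net⟩
  · let e : OnePoint V → OnePoint V → ℝ := fun p q => if p = q ∧ p ≠ OnePoint.infty then 1 else 0
    have ec : ∀ p, Continuous (e p) := fun p => (OnePoint.continuous_iff_from_discrete _).2
      (tendsto_const_nhds.congr' (((finite_singleton p).preimage OnePoint.coe_injective.injOn).subset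
        fun q hq => by
          by_contra k
          exact hq (by simp [e, show p ≠ q from fun h => k h.symm])))
    refine ⟨e, (Continuous.isClosedEmbedding (continuous_pi fun q => ?_) fun p q h => ?_).isEmbedding, ec⟩
    · convert ec q using 2 with p
      simp only [e]
      exact if_congr ⟨fun h => ⟨h.1.symm, h.1 ▸ h.2⟩, fun h => ⟨h.1.symm, h.1 ▸ h.2⟩⟩ rfl rfl
    · by_contra k
      have h1 := congrFun h p
      have h2 := congrFun h q
      simp [e, k, Ne.symm k] at h1 h2
      exact k (h1.trans h2.symm)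
  · rw [hs.range_comp]
    refine union_subset cD fun z hz => ?_
    rcases cA z hz with ⟨a, rfl⟩ | rfl
    exacts [⟨.inr (.inr (some a)), rfl⟩, ⟨.inr (.inr none), rfl⟩]
  · have := mem_closure_of_tendsto (s := range x) h2 (Eventually.of_forall mem_range_self)
    exact (cA z (closure_mono (range_subset_iff.2 h1) this)).resolve_right fun e =>
      nA _ (range_subset_iff.2 h1) (countable_range x) (e ▸ this)
  · exact nA {ind univ} (singleton_subset_iff.2 (h.closure_subset uA)) (countable_singleton _)
      (subset_closure rfl)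
  · exact net (singleton '' range d) (fun U _ z hz => ⟨{z}, ⟨z, h.isClosed.closure_subset hz.2, rfl⟩, rfl,
      singleton_subset_iff.2 hz.1⟩) ((countable_range d).image _)

end Pool.Agent.Results.MP_570618_gt.Counter
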